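import Pool.Agent.H143.MDS.DualExists
import Pool.Agent.H143.MDS.K4Main
import Pool.Agent.H143.MDS.Final

/-!
# Bounds for the sizes of arcs and representability of uniform matroids
-/

set_option autoImplicit false

namespace Pool.Agent.H143.MDS

open Module

theorem mono_restrict {F : Type} [Field F] {k m n : ℕ} (hmn : m ≤ n) (v : Fin n → (Fin k → F))
    (hv : ArcV v) : ArcV (fun i : Fin m => v (Fin.castLE hmn i)) := by
  intro J hJ
  have h1 := hv (J.map (Fin.castLEEmb hmn)) (by rw [Finset.card_map, hJ])
  let e : J → (J.map (Fin.castLEEmb hmn) : Finset (Fin n)) :=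
    fun i => ⟨Fin.castLE hmn i, Finset.mem_map_of_mem (Fin.castLEEmb hmn) i.2⟩
  have he : Function.Injective e := by
    intro i j hij
    have h2 : Fin.castLE hmn (i : Fin _) = Fin.castLE hmn (j : Fin _) := (Subtype.ext_iff.mp hij :)
    exact Subtype.ext (Fin.castLE_injective _ h2)
  exact h1.comp e he

theorem mono_shift {F : Type} [Field F] [Fintype F] {k n k' n' j : ℕ} (hj : k' + j = k)
    (hn : n' + j = n) (hk : k ≤ n) (v : Fin n → (Fin k → F)) (hv : ArcV v) :
    ∃ w : Fin n' → (Fin k' → F), ArcV w := by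
  obtain ⟨w, hw, -⟩ := dual_exists (n := n) (k := k) (k' := n - k) (by omega) v hv
  obtain ⟨x, hx, -⟩ := dual_exists (n := n') (k := n - k) (k' := k') (by omega) _
    (mono_restrict (by omega) w hw)
  exact ⟨x, hx⟩

theorem mono_two {F : Type} [Field F] [Fintype F] {n : ℕ} (hn : 2 ≤ n) (v : Fin n → (Fin 2 → F))
    (hv : ArcV v) : n ≤ Fintype.card F + 1 := by
  classical
  have h2 : ∀ i j : Fin n, i ≠ j → LinearIndependent F ![v i, v j] := by
    intro i j hij
    have h1 := hv {i, j} (Finset.card_pair hij)
    have h3 := h1.comp (![⟨i, by simp⟩, ⟨j, by simp⟩] : Fin 2 → ({i, j} : Finset (Fin n))) (by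
      intro a b hab
      fin_cases a <;> fin_cases b
      · rfl
      · exact absurd (Subtype.ext_iff.mp hab) hij
      · exact absurd (Subtype.ext_iff.mp hab).symm hij
      · rfl)
    have h4 : ((fun a : ({i, j} : Finset (Fin n)) => v a) ∘
        (![⟨i, by simp⟩, ⟨j, by simp⟩] : Fin 2 → ({i, j} : Finset (Fin n)))) = ![v i, v j] := by
      funext a
      fin_cases a <;> rfl
    rwa [h4] at h3
  refine np_card v ⟨fun i => ?_, fun i j hij c hc => ?_⟩
  · obtain ⟨j, hj⟩ : ∃ j : Fin n, j ≠ i := by
      have : Nontrivial (Fin n) := Fin.nontrivial_iff_two_le.mpr hn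
      exact exists_ne i
    exact (h2 i j hj.symm).ne_zero 0
  · have h3 := (LinearIndependent.pair_iff.mp (h2 i j hij)) 1 (-c) (by
      rw [one_smul, hc, neg_smul, add_neg_cancel])
    exact one_ne_zero h3.1

/-- the dimensions in which arcs have at most `q + 1` points -/
def MSmall (q k : ℕ) : Prop :=
  32 ≤ q ∧ 4 ≤ k ∧ ((k + 1) ^ 2 ≤ q ∨ 3 * (k - 3) ^ 2 + 2 ≤ q + 5 * (k - 3))

theorem mono_bound {F : Type} [Field F] [Fintype F] [CharP F 2] {k n : ℕ}
    (h : MSmall (Fintype.card F) k) (v : Fin n → (Fin k → F)) (hv : ArcV v) :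
    n ≤ Fintype.card F + 1 := by
  obtain ⟨hq, hk, hs⟩ := h
  have h4 : Rng (Fintype.card F) 4 := Or.inl (by omega)
  rcases (by omega : k = 4 ∨ k = 5 ∨ k = 6 ∨ 7 ≤ k) with rfl | rfl | rfl | hk7
  · by_contra hcon
    have := (k4_main (t := 4) le_rfl h4 v hv (by omega)).1
    omega
  · by_contra hcon
    have := (nrc_explicit (t := 4) (by norm_num) le_rfl h4 v hv (by omega)).1
    omega
  · by_contra hcon
    have := (nrc_explicit (t := 4) (by norm_num) le_rfl h4 v hv (by omega)).1
    omega
  · refine Pool.Agent.H143.MDS.main k hk7 ?_ n v hv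
    rcases hs with h1 | h1
    · right
      have h2 : k - 3 + 4 = k + 1 := by omega
      rw [h2]
      exact h1
    · left
      exact h1

/-- arcs in dimension at most `m + g` have at most `q + 1 + g` points -/
theorem mono_all {F : Type} [Field F] [Fintype F] [CharP F 2] {m g k n : ℕ} (hg : 1 ≤ g)
    (hm : MSmall (Fintype.card F) m) (hk : 2 ≤ k) (hkm : k ≤ m + g) (hkn : k ≤ n)
    (v : Fin n → (Fin k → F)) (hv : ArcV v) : n ≤ Fintype.card F + 1 + g := by
  have hm' := hm
  obtain ⟨h32, hm4, hs⟩ := hm'
  rcases Nat.lt_or_ge k 4 with h4 | h4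
  · obtain ⟨w, hw⟩ := mono_shift (k' := 2) (n' := n - (k - 2)) (j := k - 2) (by omega) (by omega)
      hkn v hv
    have := mono_two (by omega) w hw
    omega
  · rcases Nat.lt_or_ge m k with h5 | h5
    · obtain ⟨w, hw⟩ := mono_shift (k' := m) (n' := n - (k - m)) (j := k - m) (by omega) (by omega)
        hkn v hv
      have := mono_bound hm w hw
      omega
    · have hk' : MSmall (Fintype.card F) k := by
        refine ⟨h32, h4, ?_⟩
        rcases hs with h6 | h6
        · left
          exact (Nat.pow_le_pow_left (by omega) 2).trans h6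
        · right
          obtain ⟨d, hd⟩ := Nat.exists_eq_add_of_le (show k - 3 ≤ m - 3 by omega)
          rw [hd] at h6
          have h7 : 1 ≤ k - 3 := by omega
          generalize k - 3 = a at h6 h7 ⊢
          nlinarith
      have := mono_bound hk' v hv
      omega

/-- a representation of the uniform matroid `U_{r,n}` -/
def Rep (F : Type) [Field F] (r n : ℕ) : Prop :=
  ∃ v : Fin n → Fin r → F, ∀ s : Finset (Fin n), s.card ≤ r →
    LinearIndependent F (fun i : s => v i)

theorem rep_iff {F : Type} [Field F] {r n : ℕ} (hr : r ≤ n) :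
    Rep F r n ↔ ∃ v : Fin n → (Fin r → F), ArcV v := by
  constructor
  · rintro ⟨v, hv⟩
    exact ⟨v, fun J hJ => hv J hJ.le⟩
  · rintro ⟨v, hv⟩
    refine ⟨v, fun s hs => ?_⟩
    obtain ⟨J, hJ, hJc⟩ := Finset.exists_superset_card_eq hs (by simpa using hr)
    exact (hv J hJc).comp (fun i : s => (⟨i, hJ i.2⟩ : J)) (fun i j hij =>
      Subtype.ext (Subtype.ext_iff.mp hij :))

theorem rep_big {F : Type} [Field F] [Fintype F] {r n : ℕ} (hn : n ≤ Fintype.card F + 1) :
    Rep F r n := by
  rcases Nat.lt_or_ge n r with h | h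
  · refine ⟨fun i => Pi.single (Fin.castLE h.le i) 1, fun s _ => ?_⟩
    have h1 := (Pi.basisFun F (Fin r)).linearIndependent
    have h2 := h1.comp (fun i : s => Fin.castLE h.le (i : Fin n)) (fun i j hij =>
      Subtype.ext (Fin.castLE_injective _ hij))
    have h3 : (⇑(Pi.basisFun F (Fin r)) ∘ fun i : s => Fin.castLE h.le (i : Fin n)) =
        fun i : s => (Pi.single (Fin.castLE h.le (i : Fin n)) 1 : Fin r → F) := by
      funext i
      simp
    rwa [h3] at h2
  · rw [rep_iff h]
    obtain ⟨S, hS⟩ := exists_nrc (F := F) r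
    exact ⟨_, mono_restrict hn S hS⟩

theorem rep_small {F : Type} [Field F] {r n : ℕ} (hr : r ≤ 1) : Rep F r n := by
  refine ⟨fun _ _ => 1, fun s hs => ?_⟩
  rcases (by omega : r = 0 ∨ r = 1) with rfl | rfl
  · have h1 : s = ∅ := Finset.card_eq_zero.mp (by omega)
    subst h1
    exact linearIndependent_empty_type
  · have : Subsingleton s := by
      rw [← Fintype.card_le_one_iff_subsingleton, Fintype.card_coe]
      exact hs
    rw [Fintype.linearIndependent_iff]
    intro g hg i
    have h1 := congrFun hg 0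
    rw [Fintype.sum_subsingleton _ i] at h1
    simpa using h1

/-- uniform matroids of small rank or corank: a representation over a field of even order gives
one over every larger field -/
theorem rep_mono {F F' : Type} [Field F] [Fintype F] [CharP F 2] [Field F'] [Fintype F']
    {m r n : ℕ} (hF : Fintype.card F < Fintype.card F') (hm : MSmall (Fintype.card F) m)
    (h : r + Fintype.card F ≤ m + Fintype.card F' ∨ n + Fintype.card F ≤ r + m + Fintype.card F')
    (hr : Rep F r n) : Rep F' r n := by
  by_cases hn : n ≤ Fintype.card F' + 1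
  · exact rep_big hn
  by_cases hr1 : r ≤ 1
  · exact rep_small hr1
  by_cases hrn : r ≤ n
  · rw [rep_iff hrn] at hr
    obtain ⟨v, hv⟩ := hr
    by_cases hr2 : n ≤ r + 1
    · obtain ⟨w, hw⟩ := (rep_iff (F := F') (r := n - r) (n := n) (by omega)).1
        (rep_small (by omega))
      rw [rep_iff hrn]
      obtain ⟨x, hx, -⟩ := dual_exists (n := n) (k := n - r) (k' := r) (by omega) w hw
      exact ⟨x, hx⟩
    · exfalso
      rcases h with h | h
      · have := mono_all (g := Fintype.card F' - Fintype.card F) (by omega) hm (by omega)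
          (by omega) hrn v hv
        omega
      · obtain ⟨w, hw, -⟩ := dual_exists (n := n) (k := r) (k' := n - r) (by omega) v hv
        have := mono_all (g := Fintype.card F' - Fintype.card F) (by omega) hm (by omega)
          (by omega) (by omega) w hw
        omega
  · obtain ⟨v, hv⟩ := hr
    refine ⟨fun i => Pi.single (Fin.castLE (by omega) i) 1, fun s _ => ?_⟩
    have h1 := (Pi.basisFun F' (Fin r)).linearIndependent
    have h2 := h1.comp (fun i : s => Fin.castLE (show n ≤ r by omega) (i : Fin n))
      (fun i j hij => Subtype.ext (Fin.castLE_injective _ hij))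
    have h3 : (⇑(Pi.basisFun F' (Fin r)) ∘ fun i : s => Fin.castLE (show n ≤ r by omega)
        (i : Fin n)) = fun i : s => (Pi.single (Fin.castLE (show n ≤ r by omega) (i : Fin n)) 1 :
          Fin r → F') := by
      funext i
      simp
    rwa [h3] at h2

end Pool.Agent.H143.MDS
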